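import Pool.Agent.P.MP_d7339e_co.H.Link

set_option autoImplicit false

namespace Pool.Agent.Results.MP_d7339e_co.Compliant

open Pool.Agent.P.MP_d7339e_co

/-- Adding an edge between the ends of a flat path does not change whether a finite graph is
metrizable. -/
theorem result {V : Type} [Finite V] (G : SimpleGraph V) (x y : V) (h : FlatPair G x y) :
    Metrizable (G ⊔ SimpleGraph.edge x y) ↔ Metrizable G :=
  H.met_false.trans ((H.met_add h).trans H.met_false.symm)

end Pool.Agent.Results.MP_d7339e_co.Compliant
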