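import Pool.Agent.P.MP_d7339e_co.H.Link

set_option autoImplicit false

namespace Pool.Agent.Results.MP_d7339e_co.StrictFamilies

open Pool.Agent.P.MP_d7339e_co

/-- Every finite graph obtained from the complete graph on five vertices minus an edge, with two
opposite rim edges subdivided arbitrarily, by deleting edges and adding edges between the ends of
flat paths, is strictly metrizable. -/
theorem result {V : Type} [Finite V] (G : SimpleGraph V) (h : Derived G) :
    StrictlyMetrizable G :=
  H.met_true.2 (H.met_of_am (H.derived_am h))

end Pool.Agent.Results.MP_d7339e_co.StrictFamilies
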